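import Pool.Agent.R794.UQ.CofLe

/-!
# The cofinality of the polymorphism clones of the rational Urysohn space and sphere

The definitions are in `Pool/Agent/R794/UQ/Defs.lean` (operations, clones, `Generates`, `Pol`, the
rational Urysohn space and sphere as Fraisse limits, the relations `d x y ≤ q`) and
`Pool/Agent/R794/UQ/CofDefs.lean` (`ProperChain`, the cofinality `cf`, `part`).

The proof: `X × X` with the maximum metric is a nonexpansive retract of `X`, so that one binary
polymorphism together with the endomorphisms generates everything; and all members of a sequence of
nonexpansive self-maps `g n` have the form `F ∘ τ^(a n) ∘ w`, because copies of `X` can be attached by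
their base points at distant places of a ray inside `X`.
-/

set_option autoImplicit false

namespace Pool.Agent.Results.MP_18f3df_al.UncountableCofinality

open Pool.Agent.R794.UQ Cardinal

/-- 1. The cofinality of the polymorphism clone of the rational Urysohn space is uncountable.

2. The cofinality of the polymorphism clone of the rational Urysohn sphere is uncountable.

3. The cofinality of the polymorphism clone of `(ℚ, ≤)` is uncountable if and only if this clone is
generated by its operations of some fixed arity. -/
theorem result :
    (∀ (X : Type) (d : X → X → ℚ), IsUrysohnSpace d → ℵ₀ < cf (Pol (metricRel d))) ∧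
    (∀ (X : Type) (d : X → X → ℚ), IsUrysohnSphere d → ℵ₀ < cf (Pol (metricRel d))) ∧
    (ℵ₀ < cf (Pol leRel) ↔ ∃ k, Generates (part (Pol leRel) k) (Pol leRel)) :=
  ⟨fun _ _ hX => cf_space hX, fun _ _ hX => cf_sphere hX, cf_le_iff⟩

end Pool.Agent.Results.MP_18f3df_al.UncountableCofinality
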