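import Pool.Agent.R687.Clo.Chain

/-!
MP_18f3df_al, Q1 (full positive answer) and the case of the rational Urysohn sphere of Q2: the
polymorphism clones of the rational Urysohn space and of the rational Urysohn sphere have uncountable
cofinality; moreover every countable set of polymorphisms lies in a finitely generated subclone.

Definitions: `Pool.Agent.R687.Clo.Defs`, and `FinGen`, `IsChainOf`, `UncountableCofinality` in
`Pool.Agent.R687.Clo.Chain`.
-/

namespace Pool.Agent.Results.MP_18f3df_al.UrysohnCofinality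

open Pool.Agent.R687.Clo

/-- every sequence of members of the clone `F` lies in a finitely generated subclone of `F` -/
def CountableInFinGen {A : Type} (F : Fam A) : Prop :=
  ∀ f : ℕ → Σ n, Op A n, (∀ n, (f n).2 ∈ F (f n).1) →
    ∃ G : Fam A, IsClone G ∧ FinGen G ∧ (∀ n, G n ⊆ F n) ∧ ∀ n, (f n).2 ∈ G (f n).1

theorem countableInFinGen {A : Type} {F : Fam A} (hF : IsClone F)
    (h : ∀ f : ℕ → Σ n, Op A n, (∀ n, (f n).2 ∈ F (f n).1) →
      ∃ L : List (Σ n, Op A n), (∀ p ∈ L, p.2 ∈ F p.1) ∧ ∀ n, (f n).2 ∈ gen (lfam L) (f n).1) :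
    CountableInFinGen F := by
  intro f hf
  obtain ⟨L, hL, hL'⟩ := h f hf
  exact ⟨gen (lfam L), gen_clone _, ⟨L, subset_gen _, fun C hC hLC n g hg => gen_subset hC hLC n hg⟩,
    fun n => gen_subset hF (fun m g hg => hL ⟨m, g⟩ hg) n, hL'⟩

/-- `cf(Pol X) > ℵ₀` for the rational Urysohn space and for the rational Urysohn sphere. -/
theorem result :
    (∀ (X : Type) [MetricSpace X], IsUrySpace X →
      UncountableCofinality (Pol (metRel X)) ∧ CountableInFinGen (Pol (metRel X))) ∧
    (∀ (X : Type) [MetricSpace X], IsUrySphere X →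
      UncountableCofinality (Pol (metRel X)) ∧ CountableInFinGen (Pol (metRel X))) :=
  ⟨fun _ _ h => ⟨cofinality_space h, countableInFinGen (pol_clone _) (countable_space h)⟩,
    fun _ _ h => ⟨cofinality_sphere h, countableInFinGen (pol_clone _) (countable_sphere h)⟩⟩

end Pool.Agent.Results.MP_18f3df_al.UrysohnCofinality
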